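import Pool.Agent.Helper33.LN.FF
import Pool.Agent.Helper95.HS.Stmts

/-! # Row FFX (MP_56acfd_mp): the field of the far charges, explicit powers of `d` -/

set_option autoImplicit false

namespace Pool.Agent.Helper33.HS

open MeasureTheory Filter Topology Pool.Agent.Helper95.PW Pool.Agent.Helper95.LN
open Pool.Agent.Helper95.CF Pool.Agent.Helper95.HS Pool.Agent.Helper33.LN

/-- row FFX -/
theorem FFX (hM : ST_MVP) (hA : ST_PHA) (hB : ST_PHB) (hC : ST_PHC) (hN : ST_NBX)
    (hD : ST_DEX) : ST_FFX := by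
  obtain ⟨CN, hCN, hNB⟩ := hN
  obtain ⟨hcb, hk, ⟨Ce, hCe, hCe1⟩, hC4⟩ := hC
  set K := 32 * Ce / kap + 300 with hK
  have hK0 : 0 < K := by positivity
  refine ⟨2 * K ^ 2 * (kap + 2 * CN + 8), by positivity, ?_⟩
  intro d n M X Z x hd1 hX hZ1
  have hd : 0 < d := by linarith
  have hZ0 : ∀ j, 0 ≤ Z j := fun j => by rw [hZ1 j]; exact zero_le_one
  have hZ : ∀ j, Z j ≤ 1 := fun j => (hZ1 j).le
  set b := d / 8 with hb
  have hb0 : 0 < b := by positivity
  set c1 := Ce / (d / 4) ^ 3 with hc1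
  have hc10 : 0 < c1 := by positivity
  obtain ⟨hDi, -⟩ := hD b n M X Z x hb0
  set S : R3 → ℝ := fun w => ∑ i, pd i (Pt b X Z x) w ^ 2 with hS
  have hS0 : ∀ w, 0 ≤ S w := fun w => Finset.sum_nonneg fun i _ => sq_nonneg _
  have hphs := (hA b hb0).1
  have hPts : ContDiff ℝ (⊤ : ℕ∞) (Pt b X Z x) := by
    rw [ff_Pt]
    exact ffa_lin_smooth hphs _ _
  have hSc : Continuous S := by
    rw [hS]
    exact continuous_finsetSum _ fun i _ => ((ffa_pd_smooth hPts i).continuous.pow 2)
  set I : Fin M → ℝ := fun i => ∫ w in {w : R3 | nr (w - X i) < 2 * d}, S w with hI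
  have hI0 : ∀ i, 0 ≤ I i := fun i => setIntegral_nonneg_of_ae (ae_of_all _ hS0)
  have hIsum : ∑ i, I i ≤ kap * Dn b X Z x := by
    refine (ffb_disj hX hDi hS0).trans (le_of_eq ?_)
    unfold Dn
    rw [← mul_assoc, mul_one_div_cancel hk.ne', one_mul]
  have hJ0 : ∀ i, 0 ≤ I i / d ^ 3 := fun i => div_nonneg (hI0 i) (by positivity)
  have hcnt : ∀ i, 0 ≤ cnt X (3 / 2 * d) x i := fun i => by
    unfold cnt
    exact Finset.sum_nonneg fun k _ => by split_ifs <;> norm_num
  refine ⟨fun i => K * (Real.sqrt (I i / d ^ 3) + (cnt X (3 / 2 * d) x i + 2) / d ^ 2), ?_, ?_⟩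
  · intro i m y hy
    set h : R3 → ℝ := fun w => ∑ s, fff d X Z x i s * pd m (ph b) (w - Sum.elim x X s) with hh
    have hhs : ContDiff ℝ (⊤ : ℕ∞) h := ffa_lin_smooth (ffa_pd_smooth hphs m) _ _
    have hv := (hM h y (d / 4) hhs (by positivity)).1 (fun w hw => by
      refine ff_lap hA hB ⟨hcb, hk, ⟨Ce, hCe, hCe1⟩, hC4⟩ hb0 le_rfl hd hX Z x i m w ?_
      have h1 := ffa_tri' w y (X i)
      linarith)
    obtain ⟨es, e0, eo, ei, en, ek⟩ := hC4 (d / 4) (by positivity)
    set e : R3 → ℝ := fun w => et (d / 4) (w - y) with he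
    have hec : Continuous e := es.continuous.comp (continuous_id.sub continuous_const)
    have hes : HasCompactSupport e := by
      refine HasCompactSupport.intro (isCompact_closedBall y (d / 4)) fun w hw => ?_
      rw [mem_closedBall_iff_norm, not_le] at hw
      exact eo _ (hw.le.trans (phc_norm_le _))
    have hek : ∫ w, e w = kap := by
      rw [he, integral_sub_right_eq_self (fun w => et (d / 4) w) y]
      exact ek
    have hlam : 0 < Real.sqrt (I i / d ^ 3) + 1 / d ^ 2 :=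
      add_pos_of_nonneg_of_pos (Real.sqrt_nonneg _) (by positivity)
    have hp := ffb_point (a := kap * h y) (c1 := c1) (I := I i)
      (N0 := (cnt X (3 / 2 * d) x i + 1) * (4 / b ^ 2))
      (lam := Real.sqrt (I i / d ^ 3) + 1 / d ^ 2) (kp := kap)
      (S := S) (h := h) (e := e) (B := {w : R3 | nr (w - X i) < 2 * d}) hlam le_rfl
      (isOpen_lt (phc_nr_cont.comp (continuous_id.sub continuous_const))
        continuous_const).measurableSet hDi hS0 hSc hhs.continuous hec hes (fun w => e0 _)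
      (fun w => hCe1 _ _ (by positivity)) hc10.le (fun w hw => by
        refine eo _ ?_
        have h1 : ¬ nr (w - X i) < 2 * d := hw
        push Not at h1
        have h2 := ffa_tri' w y (X i)
        linarith) hek (fun w => by
        have h1 : h w = -pd m (Pt b X Z x) w +
            ∑ s, ffn d X Z x i s * pd m (ph b) (w - Sum.elim x X s) := by
          rw [ff_Pt, ffa_lin hphs, hh]
          simp only
          rw [← Finset.sum_neg_distrib, ← Finset.sum_add_distrib]
          refine Finset.sum_congr rfl fun s _ => ?_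
          rw [ff_split]
          ring
        rw [h1]
        refine (abs_add_le _ _).trans (add_le_add ?_ ?_)
        · rw [abs_neg]
          refine Real.abs_le_sqrt ?_
          rw [hS]
          exact Finset.single_le_sum (f := fun i => pd i (Pt b X Z x) w ^ 2)
            (fun j _ => sq_nonneg _) (Finset.mem_univ m)
        · exact ff_near X Z x i (pd m (ph b)) ((hB b hb0).2.1 m) hZ0 hZ w) hv
    have hfar : h y = farE d X Z x i m y :=
      ff_far le_rfl hd hX Z x i m ((hB b hb0).2.2.2 m) y hy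
    rw [hfar, abs_mul, abs_of_pos hk] at hp
    obtain ⟨J, hJ⟩ : ∃ J : ℝ, J = I i / d ^ 3 := ⟨_, rfl⟩
    have hJ0' : 0 ≤ J := by rw [hJ]; exact hJ0 i
    have hIJ : I i = J * d ^ 3 := by
      rw [hJ]
      field_simp
    rw [← hJ] at hp hlam
    simp only
    rw [← hJ]
    have hs0 := Real.sqrt_nonneg J
    have hIs : J / (Real.sqrt J + 1 / d ^ 2) ≤ Real.sqrt J := by
      rw [div_le_iff₀ hlam]
      have h1 := Real.sq_sqrt hJ0'
      have h2 : 0 ≤ Real.sqrt J * (1 / d ^ 2) := by positivity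
      nlinarith
    have hp2 : kap * |farE d X Z x i m y| ≤ kap * (K * (Real.sqrt J +
        (cnt X (3 / 2 * d) x i + 2) / d ^ 2)) := by
      refine hp.trans ?_
      have h1 : 1 / (2 * (Real.sqrt J + 1 / d ^ 2)) * (c1 * I i) =
          32 * Ce * (J / (Real.sqrt J + 1 / d ^ 2)) := by
        rw [hc1, hIJ]
        have hl := hlam.ne'
        field_simp
        ring
      rw [h1]
      have h2 : 32 * Ce * (J / (Real.sqrt J + 1 / d ^ 2)) ≤ 32 * Ce * Real.sqrt J :=
        mul_le_mul_of_nonneg_left hIs (by positivity)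
      obtain ⟨q, hq⟩ : ∃ q : ℝ, q = cnt X (3 / 2 * d) x i / d ^ 2 := ⟨_, rfl⟩
      obtain ⟨r, hr⟩ : ∃ r : ℝ, r = 1 / d ^ 2 := ⟨_, rfl⟩
      have hq0 : 0 ≤ q := by rw [hq]; exact div_nonneg (hcnt i) (by positivity)
      have hr0 : 0 ≤ r := by rw [hr]; positivity
      have h3 : (cnt X (3 / 2 * d) x i + 2) / d ^ 2 = q + 2 * r := by
        rw [hq, hr]
        ring
      have h6 : (cnt X (3 / 2 * d) x i + 1) * (4 / b ^ 2) = 256 * q + 256 * r := by
        rw [hq, hr, hb]
        field_simp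
        ring
      rw [h3, h6, ← hr]
      have h7 : kap * (K * (Real.sqrt J + (q + 2 * r))) =
          (32 * Ce + 300 * kap) * (Real.sqrt J + (q + 2 * r)) := by
        rw [hK]
        field_simp
      rw [h7]
      have g1 : 0 ≤ Ce * q := by positivity
      have g2 : 0 ≤ Ce * r := by positivity
      have g3 : 0 ≤ kap * Real.sqrt J := by positivity
      have g4 : 0 ≤ kap * q := by positivity
      have g5 : 0 ≤ kap * r := by positivity
      rw [← hr] at h2
      have h8 : (32 * Ce + 300 * kap) * (Real.sqrt J + (q + 2 * r)) =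
          32 * Ce * Real.sqrt J + 32 * (Ce * q) + 64 * (Ce * r) + 300 * (kap * Real.sqrt J) +
            300 * (kap * q) + 600 * (kap * r) := by ring
      have h9 : ((Real.sqrt J + r) / 2 + (256 * q + 256 * r)) * kap =
          1 / 2 * (kap * Real.sqrt J) + 256 * (kap * q) + (256 + 1 / 2) * (kap * r) := by ring
      rw [h8, h9]
      linarith
    exact le_of_mul_le_mul_left hp2 hk
  · have hDn0 : 0 ≤ Dn b X Z x := by
      unfold Dn
      exact mul_nonneg (by positivity) (integral_nonneg hS0)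
    have hnb := hNB d n M X Z x hd1 hX hZ1
    have h1 : ∀ i, (K * (Real.sqrt (I i / d ^ 3) +
        (cnt X (3 / 2 * d) x i + 2) / d ^ 2)) ^ 2 ≤
        2 * K ^ 2 * (I i / d ^ 3 + (2 * cnt X (3 / 2 * d) x i ^ 2 + 8) / d ^ 4) := by
      intro i
      have h2 := Real.sq_sqrt (hJ0 i)
      obtain ⟨p, hp⟩ : ∃ p : ℝ, p = Real.sqrt (I i / d ^ 3) := ⟨_, rfl⟩
      obtain ⟨q, hq⟩ : ∃ q : ℝ, q = (cnt X (3 / 2 * d) x i + 2) / d ^ 2 := ⟨_, rfl⟩
      rw [← hp] at h2
      rw [← hp, ← hq, ← h2]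
      have h3 : q ^ 2 ≤ (2 * cnt X (3 / 2 * d) x i ^ 2 + 8) / d ^ 4 := by
        have h4 : q ^ 2 = (cnt X (3 / 2 * d) x i + 2) ^ 2 / d ^ 4 := by
          rw [hq]
          field_simp
        rw [h4]
        refine div_le_div_of_nonneg_right ?_ (by positivity)
        nlinarith [sq_nonneg (cnt X (3 / 2 * d) x i - 2)]
      have h5 : (p + q) ^ 2 ≤ 2 * (p ^ 2 + (2 * cnt X (3 / 2 * d) x i ^ 2 + 8) / d ^ 4) := by
        nlinarith [sq_nonneg (p - q)]
      calc (K * (p + q)) ^ 2 = K ^ 2 * (p + q) ^ 2 := by ring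
        _ ≤ K ^ 2 * (2 * (p ^ 2 + (2 * cnt X (3 / 2 * d) x i ^ 2 + 8) / d ^ 4)) :=
          mul_le_mul_of_nonneg_left h5 (by positivity)
        _ = _ := by ring
    refine (Finset.sum_le_sum fun i _ => h1 i).trans ?_
    rw [← Finset.mul_sum, Finset.sum_add_distrib, ← Finset.sum_div, ← Finset.sum_div,
      Finset.sum_add_distrib, Finset.sum_const, Finset.card_univ, Fintype.card_fin, nsmul_eq_mul,
      ← Finset.mul_sum, mul_assoc (2 * K ^ 2)]
    refine mul_le_mul_of_nonneg_left ?_ (by positivity)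
    have hM0 : (0 : ℝ) ≤ M := Nat.cast_nonneg M
    obtain ⟨D, hDD⟩ : ∃ D : ℝ, D = Dn b X Z x := ⟨_, rfl⟩
    rw [← hDD] at hnb hIsum hDn0 ⊢
    have h2 : (∑ i, I i) / d ^ 3 ≤ kap * (D / d ^ 3) := by
      rw [← mul_div_assoc]
      exact div_le_div_of_nonneg_right hIsum (by positivity)
    have h3 : (2 * (∑ i, cnt X (3 / 2 * d) x i ^ 2) + M * 8) / d ^ 4 ≤
        2 * CN * (M / d ^ 4 + D / d ^ 3) + 8 * (M / d ^ 4) := by
      have h4 : 2 * CN * (M / d ^ 4 + D / d ^ 3) + 8 * (M / d ^ 4) =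
          (2 * (CN * (M + d * D)) + M * 8) / d ^ 4 := by
        field_simp
      rw [h4]
      refine div_le_div_of_nonneg_right ?_ (by positivity)
      linarith
    have g1 : 0 ≤ (M : ℝ) / d ^ 4 := by positivity
    have g2 : 0 ≤ D / d ^ 3 := div_nonneg hDn0 (by positivity)
    have g3 : 0 ≤ kap * ((M : ℝ) / d ^ 4) := by positivity
    have h5 : (kap + 2 * CN + 8) * (M / d ^ 4 + D / d ^ 3) =
        kap * (D / d ^ 3) + kap * (M / d ^ 4) + 2 * CN * (M / d ^ 4 + D / d ^ 3) +
          8 * (M / d ^ 4) + 8 * (D / d ^ 3) := by ring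
    rw [h5]
    linarith

end Pool.Agent.Helper33.HS
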